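import Pool.Agent.LibJB95.C4

/-!
# Jeśmanowicz's conjecture for all Pythagorean triples with few exceptions
-/

namespace Pool.Agent.Results.MP_252f3f_nt.AllTriples

open Jes95 JB95

/-- For every `ε > 0`, at most `K_ε C ^ (3/5 + ε)` of all Pythagorean triples `(a, b, c)`
(primitive or not) with `c ≤ C` admit a solution of `a ^ x + b ^ y = c ^ z` in positive integers
other than `x = y = z = 2`. -/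
theorem result (ε : ℝ) (hε : 0 < ε) : ∃ K : ℝ, ∀ C : ℕ, 1 ≤ C →
    (({t : ℕ × ℕ × ℕ | 0 < t.1 ∧ 0 < t.2.1 ∧ t.1 ^ 2 + t.2.1 ^ 2 = t.2.2 ^ 2 ∧ t.2.2 ≤ C ∧
      ∃ x y z : ℕ, 0 < x ∧ 0 < y ∧ 0 < z ∧ t.1 ^ x + t.2.1 ^ y = t.2.2 ^ z ∧
        ¬ (x = 2 ∧ y = 2 ∧ z = 2)}).ncard : ℝ) ≤ K * (C : ℝ) ^ (3 / 5 + ε) := by
  obtain ⟨K, _, hK⟩ := all_exc ε hε
  refine ⟨K, fun C hC => ?_⟩
  have e1 : ({t : ℕ × ℕ × ℕ | 0 < t.1 ∧ 0 < t.2.1 ∧ t.1 ^ 2 + t.2.1 ^ 2 = t.2.2 ^ 2 ∧ t.2.2 ≤ C ∧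
      ∃ x y z : ℕ, 0 < x ∧ 0 < y ∧ 0 < z ∧ t.1 ^ x + t.2.1 ^ y = t.2.2 ^ z ∧
        ¬ (x = 2 ∧ y = 2 ∧ z = 2)}) =
      {t : ℕ × ℕ × ℕ | 0 < t.1 ∧ 0 < t.2.1 ∧ t.1 ^ 2 + t.2.1 ^ 2 = t.2.2 ^ 2 ∧ t.2.2 ≤ C ∧
        ¬ Jes t.1 t.2.1 t.2.2} := by
    ext t
    simp only [Set.mem_ofPred_eq, Jes]
    constructor
    · rintro ⟨h1, h2, h3, h4, x, y, z, hx, hy, hz, e, hne⟩
      exact ⟨h1, h2, h3, h4, fun hall => hne (hall x y z hx hy hz e)⟩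
    · rintro ⟨h1, h2, h3, h4, hne⟩
      push Not at hne
      obtain ⟨x, y, z, hx, hy, hz, e, hne⟩ := hne
      exact ⟨h1, h2, h3, h4, x, y, z, hx, hy, hz, e, fun ⟨q1, q2, q3⟩ => hne q1 q2 q3⟩
  rw [e1]
  exact hK C hC

end Pool.Agent.Results.MP_252f3f_nt.AllTriples
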