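import Pool.Agent.LibJB95.C5

/-!
# Jeśmanowicz's conjecture in polynomial families of Pythagorean triples
-/

namespace Pool.Agent.Results.MP_252f3f_nt.PolynomialFamilies

open Jes95 JB95
open Polynomial

/-- There is an absolute constant `K` such that for all coprime polynomials `P, Q ∈ ℤ[X]`, not both
constant, and all `k ≥ 1`, `M ≥ 2`: among the integers `t` with `0 < Q(t) < P(t) ≤ M` there are at
most `K max(deg P, deg Q) (log (kM)) ^ 9` for which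
`(k (P(t)² - Q(t)²)) ^ x + (k 2 P(t) Q(t)) ^ y = (k (P(t)² + Q(t)²)) ^ z`
has a solution in positive integers other than `x = y = z = 2`. -/
theorem result : ∃ K : ℝ, ∀ P Q : ℤ[X],
    IsCoprime (P.map (Int.castRingHom ℚ)) (Q.map (Int.castRingHom ℚ)) →
    (0 < P.natDegree ∨ 0 < Q.natDegree) → ∀ k M : ℕ, 1 ≤ k → 2 ≤ M →
    ({t : ℤ | 0 < Q.eval t ∧ Q.eval t < P.eval t ∧ P.eval t ≤ M ∧
      ∃ x y z : ℕ, 0 < x ∧ 0 < y ∧ 0 < z ∧
        ((k : ℤ) * ((P.eval t) ^ 2 - (Q.eval t) ^ 2)) ^ x + ((k : ℤ) * (2 * P.eval t * Q.eval t)) ^ y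
          = ((k : ℤ) * ((P.eval t) ^ 2 + (Q.eval t) ^ 2)) ^ z ∧
        ¬ (x = 2 ∧ y = 2 ∧ z = 2)}).Finite ∧
    (({t : ℤ | 0 < Q.eval t ∧ Q.eval t < P.eval t ∧ P.eval t ≤ M ∧
      ∃ x y z : ℕ, 0 < x ∧ 0 < y ∧ 0 < z ∧
        ((k : ℤ) * ((P.eval t) ^ 2 - (Q.eval t) ^ 2)) ^ x + ((k : ℤ) * (2 * P.eval t * Q.eval t)) ^ y
          = ((k : ℤ) * ((P.eval t) ^ 2 + (Q.eval t) ^ 2)) ^ z ∧
        ¬ (x = 2 ∧ y = 2 ∧ z = 2)}).ncard : ℝ) ≤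
      K * (max P.natDegree Q.natDegree : ℕ) * (Real.log (k * M)) ^ 9 := by
  obtain ⟨K, _, hK⟩ := fam_count
  refine ⟨K, fun P Q hco hdeg k M hk hM => ?_⟩
  have e1 : ({t : ℤ | 0 < Q.eval t ∧ Q.eval t < P.eval t ∧ P.eval t ≤ M ∧
      ∃ x y z : ℕ, 0 < x ∧ 0 < y ∧ 0 < z ∧
        ((k : ℤ) * ((P.eval t) ^ 2 - (Q.eval t) ^ 2)) ^ x + ((k : ℤ) * (2 * P.eval t * Q.eval t)) ^ y
          = ((k : ℤ) * ((P.eval t) ^ 2 + (Q.eval t) ^ 2)) ^ z ∧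
        ¬ (x = 2 ∧ y = 2 ∧ z = 2)}) =
      {t : ℤ | 0 < Q.eval t ∧ Q.eval t < P.eval t ∧ P.eval t ≤ M ∧
      ¬ Jes (k * ((P.eval t) ^ 2 - (Q.eval t) ^ 2).toNat) (k * (2 * P.eval t * Q.eval t).toNat)
        (k * ((P.eval t) ^ 2 + (Q.eval t) ^ 2).toNat)} := by
    ext t
    simp only [Set.mem_ofPred_eq, Jes]
    have key : 0 < Q.eval t → Q.eval t < P.eval t → ∀ x y z : ℕ,
        (((k : ℤ) * ((P.eval t) ^ 2 - (Q.eval t) ^ 2)) ^ x +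
          ((k : ℤ) * (2 * P.eval t * Q.eval t)) ^ y
          = ((k : ℤ) * ((P.eval t) ^ 2 + (Q.eval t) ^ 2)) ^ z ↔
        (k * ((P.eval t) ^ 2 - (Q.eval t) ^ 2).toNat) ^ x +
          (k * (2 * P.eval t * Q.eval t).toNat) ^ y =
          (k * ((P.eval t) ^ 2 + (Q.eval t) ^ 2).toNat) ^ z) := by
      intro hq hpq x y z
      have hp : 0 < P.eval t := by omega
      have c1 : (((P.eval t ^ 2 - Q.eval t ^ 2).toNat : ℕ) : ℤ) = P.eval t ^ 2 - Q.eval t ^ 2 :=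
        Int.toNat_of_nonneg (by nlinarith)
      have c2 : (((2 * P.eval t * Q.eval t).toNat : ℕ) : ℤ) = 2 * P.eval t * Q.eval t :=
        Int.toNat_of_nonneg (by positivity)
      have c3 : (((P.eval t ^ 2 + Q.eval t ^ 2).toNat : ℕ) : ℤ) = P.eval t ^ 2 + Q.eval t ^ 2 :=
        Int.toNat_of_nonneg (by positivity)
      rw [← Nat.cast_inj (R := ℤ), Nat.cast_add, Nat.cast_pow, Nat.cast_pow, Nat.cast_pow,
        Nat.cast_mul, Nat.cast_mul, Nat.cast_mul, c1, c2, c3]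
    constructor
    · rintro ⟨h1, h2, h3, x, y, z, hx, hy, hz, e, hne⟩
      exact ⟨h1, h2, h3, fun hall => hne (hall x y z hx hy hz ((key h1 h2 x y z).1 e))⟩
    · rintro ⟨h1, h2, h3, hne⟩
      push Not at hne
      obtain ⟨x, y, z, hx, hy, hz, e, hne⟩ := hne
      exact ⟨h1, h2, h3, x, y, z, hx, hy, hz, (key h1 h2 x y z).2 e,
        fun ⟨q1, q2, q3⟩ => hne q1 q2 q3⟩
  rw [e1]
  exact hK P Q hco hdeg k M hk hM

end Pool.Agent.Results.MP_252f3f_nt.PolynomialFamilies
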