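import Pool.Agent.LibPX91.H4
/-!
# Jeśmanowicz's conjecture for primitive Pythagorean triples: effective bounds and a polylogarithmic
number of exceptions
-/
namespace Pool.Agent.Results.MP_252f3f_nt.PrimitivePolylog
/-- * If `(a, b, c)` is a primitive Pythagorean triple and `a ^ x + b ^ y = c ^ z` has a solution in
  positive integers other than `x = y = z = 2`, then `c ≤ 2 ^ (10 ^ 4 * max x y ^ 3)`.
* There is an absolute constant `K` such that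
  * for every `E ≥ 1` at most `K E ^ K` primitive Pythagorean triples are such that
    `a ^ x + b ^ y = c ^ z` has a solution in positive integers `x, y, z ≤ E` other than
    `x = y = z = 2`;
  * for every `C ≥ 3` at most `K (log C) ^ K` of the primitive Pythagorean triples `(a, b, c)` with
    `c ≤ C` are such that `a ^ x + b ^ y = c ^ z` has a solution in positive integers other than
    `x = y = z = 2`. -/
theorem result : (∀ a b c x y z : ℕ, 0 < a → 0 < b → a.Coprime b → a ^ 2 + b ^ 2 = c ^ 2 →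
      0 < x → 0 < y → 0 < z → a ^ x + b ^ y = c ^ z → ¬ (x = 2 ∧ y = 2 ∧ z = 2) →
      c ≤ 2 ^ (10 ^ 4 * (max x y) ^ 3)) ∧
    ∃ K : ℕ,
      (∀ E : ℕ, 1 ≤ E → {t : ℕ × ℕ × ℕ | 0 < t.1 ∧ 0 < t.2.1 ∧ t.1.Coprime t.2.1 ∧
          t.1 ^ 2 + t.2.1 ^ 2 = t.2.2 ^ 2 ∧ ∃ x y z : ℕ, 0 < x ∧ 0 < y ∧ 0 < z ∧
          x ≤ E ∧ y ≤ E ∧ z ≤ E ∧ t.1 ^ x + t.2.1 ^ y = t.2.2 ^ z ∧
          ¬ (x = 2 ∧ y = 2 ∧ z = 2)}.ncard ≤ K * E ^ K) ∧
      ∀ C : ℕ, 3 ≤ C →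
        (({t : ℕ × ℕ × ℕ | 0 < t.1 ∧ 0 < t.2.1 ∧ t.1.Coprime t.2.1 ∧
          t.1 ^ 2 + t.2.1 ^ 2 = t.2.2 ^ 2 ∧ t.2.2 ≤ C ∧ ∃ x y z : ℕ, 0 < x ∧ 0 < y ∧ 0 < z ∧
          t.1 ^ x + t.2.1 ^ y = t.2.2 ^ z ∧ ¬ (x = 2 ∧ y = 2 ∧ z = 2)}).ncard : ℝ) ≤
        K * (Real.log C) ^ K :=
  PX91.main2

end Pool.Agent.Results.MP_252f3f_nt.PrimitivePolylog
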