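import Pool.Agent.LibJ91.N7

/-!
# Jeśmanowicz's conjecture for all Pythagorean triples with a small leg, and for their multiples
-/

namespace Pool.Agent.Results.MP_252f3f_nt.SmallLeg

/-- Let `α ≥ 1/2`, `κ ≥ 0` with `(κ + 2α - 1)(κ + α) < (1 - α)(1 + κ)²` (for `κ = 0` this is
`α < 1/√2`). There is `C₀` such that for every primitive Pythagorean triple `(a, b, c)` with
`c ≥ C₀` and `min(a, b) ≤ c ^ α` and every `k` with `1 ≤ k ≤ c ^ κ` the only solution of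
`(k a) ^ x + (k b) ^ y = (k c) ^ z` in positive integers is `x = y = z = 2`. -/
theorem result (α κ : ℝ) (hα : 1 / 2 ≤ α) (hκ : 0 ≤ κ)
    (h : (κ + 2 * α - 1) * (κ + α) < (1 - α) * (1 + κ) ^ 2) :
    ∃ C₀ : ℝ, ∀ a b c k : ℕ, 0 < a → 0 < b → a.Coprime b → a ^ 2 + b ^ 2 = c ^ 2 → C₀ ≤ (c : ℝ) →
      ((min a b : ℕ) : ℝ) ≤ (c : ℝ) ^ α → 1 ≤ k → (k : ℝ) ≤ (c : ℝ) ^ κ →
      ∀ x y z : ℕ, 0 < x → 0 < y → 0 < z → (k * a) ^ x + (k * b) ^ y = (k * c) ^ z →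
        x = 2 ∧ y = 2 ∧ z = 2 := by
  obtain ⟨C₀, hC⟩ := J91.main hα hκ h
  refine ⟨C₀, fun a b c k ha hb hab habc hc hmin hk hkc x y z hx hy hz heq => ?_⟩
  rcases le_total a b with hle | hle
  · rw [min_eq_left hle] at hmin
    exact hC a b c k x y z ha hb hab habc hc hmin hk hkc hx hy hz heq
  · rw [min_eq_right hle] at hmin
    obtain ⟨h1, h2, h3⟩ := hC b a c k y x z hb ha hab.symm (by omega) hc hmin hk hkc hy hx hz
      (by omega)
    exact ⟨h2, h1, h3⟩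

end Pool.Agent.Results.MP_252f3f_nt.SmallLeg
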